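import Pool.Agent.MP_cce4c9_lc.H87.SpecQ

/-!
The trace on the locally constant roots of unity.
-/

set_option autoImplicit false

open Polynomial

namespace Pool.Agent.MP_cce4c9_lc.H75

open Pool.Agent.MP_cce4c9_lc.H87 Pool.Agent.MP_cce4c9_lc.H87.Cv

section Gen

variable {Q I : Type} [CommRing Q] {K : I → Type} [∀ i, Field (K i)] (φ : ∀ i, Q →+* K i)
  (hb : Function.Bijective fun (y : Q) (i : I) => φ i y) {l : ℕ} [Fact l.Prime] (c : Q)
  (hc : ∀ i, IsPrimitiveRoot (φ i c) l)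

include hb hc

theorem exists_root (g : I → ZMod l) :
    ∃ u : rootsOfUnity l Q, ∀ i, φ i (u.1 : Q) = φ i c ^ (g i).val := by
  obtain ⟨y, hy⟩ := hb.2 fun i => φ i c ^ (g i).val
  have h1 : ∀ i, φ i y = φ i c ^ (g i).val := fun i => congrFun hy i
  have h2 : y ^ l = 1 := hb.1 (funext fun i => by
    show φ i (y ^ l) = φ i 1
    rw [map_pow, h1, map_one, ← pow_mul, mul_comm, pow_mul, (hc i).pow_eq_one, one_pow])
  exact ⟨rootsOfUnity.mkOfPowEq y h2, h1⟩

/-- The root of unity with given exponents. -/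
noncomputable def rt (g : I → ZMod l) : rootsOfUnity l Q := (exists_root φ hb c hc g).choose

theorem rt_spec (g : I → ZMod l) (i : I) : φ i ((rt φ hb c hc g).1 : Q) = φ i c ^ (g i).val :=
  (exists_root φ hb c hc g).choose_spec i

omit hc [Fact l.Prime] in
theorem root_ext {u v : rootsOfUnity l Q} (h : ∀ i, φ i (u.1 : Q) = φ i (v.1 : Q)) : u = v :=
  Subtype.ext (Units.ext (hb.1 (funext h)))

theorem rt_add (g g' : I → ZMod l) :
    rt φ hb c hc (g + g') = rt φ hb c hc g * rt φ hb c hc g' := by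
  refine root_ext φ hb fun i => ?_
  rw [Subgroup.coe_mul, Units.val_mul, map_mul, rt_spec, rt_spec, rt_spec, ← pow_add, Pi.add_apply,
    ZMod.val_add]
  exact (pow_eq_pow_mod _ (hc i).pow_eq_one).symm

theorem rt_surj : Function.Surjective (rt φ hb c hc) := by
  intro u
  have h1 : ∀ i, ∃ n < l, φ i c ^ n = φ i (u.1 : Q) := fun i =>
    (hc i).eq_pow_of_pow_eq_one (by
      rw [← map_pow, (mem_rootsOfUnity' l u.1).1 u.2, map_one])
  choose n hn hn' using h1
  refine ⟨fun i => (n i : ZMod l), root_ext φ hb fun i => ?_⟩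
  rw [rt_spec, ZMod.val_cast_of_lt (hn i), hn']

omit hb hc [Fact l.Prime] in
theorem mk_inj {u v : rootsOfUnity l Q} (h : Hl.mk l u = Hl.mk l v) : u = v := by
  obtain ⟨w, hw⟩ := (Hl.mk_eq_mk l u v).1 h
  have : w ^ l = 1 := Subtype.ext ((mem_rootsOfUnity l w.1).1 w.2)
  rw [hw, this, mul_one]

/-- The coordinates of the module of roots of unity. -/
noncomputable def eqv : (I → ZMod l) ≃ₗ[ZMod l] Hl (rootsOfUnity l Q) l :=
  LinearEquiv.ofBijective (AddMonoidHom.toZModLinearMap l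
    (AddMonoidHom.mk' (fun g => Hl.mk l (rt φ hb c hc g)) fun g g' => by
      rw [rt_add, Hl.mk_mul])) ⟨fun g g' h => by
    have h1 : rt φ hb c hc g = rt φ hb c hc g' := mk_inj h
    funext i
    have h2 := rt_spec φ hb c hc g i
    rw [h1, rt_spec] at h2
    exact ZMod.val_injective l ((hc i).pow_inj (ZMod.val_lt _) (ZMod.val_lt _) h2.symm),
  fun a => by
    obtain ⟨u, rfl⟩ := Hl.mk_surj l a
    obtain ⟨g, rfl⟩ := rt_surj φ hb c hc u
    exact ⟨g, rfl⟩⟩

theorem eqv_apply (g : I → ZMod l) : eqv φ hb c hc g = Hl.mk l (rt φ hb c hc g) := rfl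

open Classical in
theorem diag (σ : Q ≃+* Q) (q : ℕ) (hσ : σ c = c ^ q) (i : I) (h : I → ZMod l)
    (hh : σ ((rt φ hb c hc h).1 : Q) = ((rt φ hb c hc (Pi.single i 1)).1 : Q)) :
    (q : ZMod l) * h i = if ∀ y, φ i (σ y) = 0 ↔ φ i y = 0 then 1 else 0 := by
  have hl : 1 < l := (Fact.out : l.Prime).one_lt
  have h1 : φ i ((rt φ hb c hc (Pi.single i 1)).1 : Q) = φ i c := by
    rw [rt_spec, Pi.single_eq_same, ZMod.val_one, pow_one]
  split_ifs with hf
  · have h2 : φ i (((rt φ hb c hc h).1 : Q) - c ^ (h i).val) = 0 := by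
      rw [map_sub, rt_spec, map_pow, sub_self]
    have h3 := (hf _).2 h2
    rw [map_sub, map_pow, hh, hσ, map_sub, h1, ← pow_mul, map_pow, sub_eq_zero,
      pow_eq_pow_mod _ (hc i).pow_eq_one] at h3
    have h4 := (hc i).pow_inj hl (Nat.mod_lt _ (by omega)) ((pow_one _).trans h3)
    have h5 := congrArg (Nat.cast : ℕ → ZMod l) h4
    rw [ZMod.natCast_mod, Nat.cast_mul, ZMod.natCast_zmod_val, Nat.cast_one] at h5
    exact h5.symm
  · by_contra hne
    have h2 : φ i (((rt φ hb c hc h).1 : Q) - 1) ≠ 0 := fun e => hne (by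
      rw [map_sub, rt_spec, map_one, sub_eq_zero] at e
      have h3 := (hc i).pow_inj (ZMod.val_lt _) (by omega : 0 < l) (e.trans (pow_zero _).symm)
      rw [(ZMod.val_eq_zero _).1 h3, mul_zero])
    have h3 : ∀ y, φ i (σ y) = 0 → φ i y = 0 := fun y hy => by
      have h4 : σ (y * (((rt φ hb c hc h).1 : Q) - 1)) = 0 := hb.1 (funext fun j => by
        show φ j _ = φ j 0
        rw [map_mul, map_sub, hh, map_one, map_mul, map_zero]
        by_cases e : j = i
        · subst e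
          rw [hy, zero_mul]
        · rw [map_sub, rt_spec, Pi.single_eq_of_ne e, ZMod.val_zero, pow_zero, map_one, sub_self,
            mul_zero])
      have h5 := congrArg (φ i) (σ.map_eq_zero_iff.1 h4)
      rw [map_mul, map_zero] at h5
      exact (mul_eq_zero.1 h5).resolve_right h2
    refine hf fun y => ⟨h3 y, fun hy => ?_⟩
    by_contra h4
    obtain ⟨z, hz⟩ := hb.2 (Pi.single i (φ i (σ y))⁻¹)
    have h5 : φ i z = (φ i (σ y))⁻¹ := (congrFun hz i).trans (Pi.single_eq_same _ _)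
    have h6 := h3 (y * σ.symm z - 1) (by
      rw [map_sub, map_mul, σ.apply_symm_apply, map_one, map_sub, map_mul, h5, map_one,
        mul_inv_cancel₀ h4, sub_self])
    rw [map_sub, map_mul, hy, zero_mul, map_one, zero_sub, neg_eq_zero] at h6
    exact one_ne_zero h6

theorem trace_eq [Fintype I] (σ : Q ≃+* Q) (q : ℕ) (hσ : σ c = c ^ q) :
    (q : ZMod l) * LinearMap.trace (ZMod l) _ (Hl.map l (restrictRootsOfUnity σ.symm l)) =
      ({i : I | ∀ y, φ i (σ y) = 0 ↔ φ i y = 0}.ncard : ℕ) := by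
  classical
  rw [← LinearMap.trace_conj' _ (eqv φ hb c hc).symm,
    LinearMap.trace_eq_matrix_trace (ZMod l) (Pi.basisFun (ZMod l) I), Matrix.trace,
    Finset.mul_sum, Set.ncard_eq_toFinset_card', Set.toFinset_ofPred, ← Finset.sum_boole]
  refine Finset.sum_congr rfl fun i _ => ?_
  rw [Matrix.diag_apply, LinearMap.toMatrix_apply, Pi.basisFun_repr, Pi.basisFun_apply,
    LinearEquiv.conj_apply_apply, LinearEquiv.symm_symm]
  set h := (eqv φ hb c hc).symm (Hl.map l (restrictRootsOfUnity σ.symm l)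
    (eqv φ hb c hc (Pi.single i 1))) with hh
  have h1 : eqv φ hb c hc h = Hl.map l (restrictRootsOfUnity σ.symm l)
      (eqv φ hb c hc (Pi.single i 1)) := by rw [hh, LinearEquiv.apply_symm_apply]
  rw [eqv_apply, eqv_apply, Hl.map_mk] at h1
  have h2 := mk_inj h1
  have h3 := diag φ hb c hc σ q hσ i h (by
    rw [h2, restrictRootsOfUnity_coe_apply, σ.apply_symm_apply])
  by_cases hf : ∀ y, φ i (σ y) = 0 ↔ φ i y = 0
  · rw [if_pos hf] at h3 ⊢
    exact h3
  · rw [if_neg hf] at h3 ⊢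
    exact h3

end Gen

theorem v0 : StmtV0 := by
  intro k _ _ l p d m _ _ _ f C P hlp
  have hl0 : (l : k) ≠ 0 := fun e => hlp
    ((Nat.prime_dvd_prime_iff_eq Fact.out Fact.out).1 ((CharP.cast_eq_zero_iff k p l).1 e)).symm
  have : NeZero (l : k) := ⟨hl0⟩
  obtain ⟨ζ, hζ⟩ := HasEnoughRootsOfUnity.exists_primitiveRoot k l
  have hc : ∀ i, IsPrimitiveRoot ((P.φ i).toRingHom (algebraMap k C.Q ζ)) l := fun i => by
    have : (P.φ i).toRingHom (algebraMap k C.Q ζ) = algebraMap k (P.K i) ζ := by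
      rw [IsScalarTower.algebraMap_apply k (RatFunc k) C.Q,
        IsScalarTower.algebraMap_apply k (RatFunc k) (P.K i)]
      exact (P.φ i).commutes _
    rw [this]
    exact hζ.map_of_injective (algebraMap k (P.K i)).injective
  refine ⟨Finite.of_surjective _ (rt_surj (fun i => (P.φ i).toRingHom) P.bij _ hc),
    fun a σ hσ => ?_⟩
  exact trace_eq (fun i => (P.φ i).toRingHom) P.bij _ hc σ.1.1 (p ^ a)
    ((hσ ζ).trans (map_pow _ _ _))

end Pool.Agent.MP_cce4c9_lc.H75
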